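import Pool.Agent.H44T.BR.Pole

/-!
# The Frobenius on the second cohomology of surfaces: bounded defects vanish

Let `k` be a finite field with `q` elements and `H^2(X)` the second cohomology of `X ⊗ k'`, `k'` an
algebraic closure, with coefficients in an algebraic closure of `ℚ_ℓ`, with the Frobenius `F`.

**Theorem.**

(1) `F` is semisimple on `H^2(X)` for all smooth projective surfaces `X` over `k` if and only if there is
ONE number `d`, for example `d = 10 ^ 100`, such that for all these `X` the eigenvectors of `F` span a
subspace of `H^2(X)` of codimension at most `d`.

(2) For one polarized surface `(S, D)`: `F` is semisimple on `H^2(S)` if, for some `N`, one smooth surface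
`V ⊆ S^N`, a complete intersection of `2 (N - 1)` divisors in multiples of the class `D + ... + D`, has
the property that the eigenvectors span a subspace of `H^2(V)` of codimension `d` with
`d dim H(S) < N`.

(3) The same holds for each eigenvalue `α`, in particular for `α = q` (the weaker form of Q1), where the
codimension of the eigenspace in the generalised eigenspace is the difference of the order of the
pole of the zeta function of `X` at `s = 1` and of the dimension of `H^2(X)(1)^G`: if the order of the pole
exceeds this dimension by a bounded number for all surfaces over `k`, then they are equal for all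
surfaces over `k`.

Proof. If `x` is orthogonal to `1`, `ξ`, `ξ ^ 2` then `p_{m*} p_l^* x = 0` for `m ≠ l` and
`p_{l*} p_l^* x = κ x`, where `p_l : V → S` are the projections. If the eigenvectors span a subspace `E` of
codimension at most `d` of `H^2(V)`, with a complement `M`, and `N > d dim H(S)`, then there is a
nontrivial relation `∑ b_l p_{l*} = 0` on `M`, and `b_j κ x = ∑ b_l p_{l*} (p_j^* x)` is in the image of
`E`, so it is a sum of eigenvectors.
-/

universe u v

namespace Pool.Agent.Results.MP_1fe969_ag.BoundedJordanDefects

open Pool.Agent.H914 Pool.Agent.H914.VarClass Pool.Agent.H914.VarClass.Obj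
  Pool.Agent.H914.WeilCohomology Pool.Agent.H44T.BR

/-- **The Frobenius is semisimple on `H^2` for all surfaces if its defects are bounded; for one surface
`S` a small defect on one surface in `S^N` suffices.** -/
theorem result {k : Type u} [Field k] {𝒱 : VarClass k} {ops : CycleOps 𝒱}
    (W : WeilCohomology.{u, v} ops) (q : ℕ) (Fr : ∀ X : 𝒱.Obj, X ⟶ X) (hF : IsFrobenius W q Fr)
    (Pol : ∀ X : 𝒱.Obj, X.Cycles → Prop) (hP : HasPowers W Pol 2) :
    EigenPrinciple W Fr Pol 2 2 ∧ ∀ α, EigenPrincipleAt W Fr Pol 2 2 α :=
  ⟨eigenPrinciple hF hP 2, fun α => eigenPrincipleAt hF hP 2 α⟩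

end Pool.Agent.Results.MP_1fe969_ag.BoundedJordanDefects
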