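import Pool.Agent.V11106.SH.Surf

/-!
# Semisimplicity of an eigenvalue of Frobenius on the second cohomology of surfaces

Consider the cohomology of the complete varieties over a finite field, with the Frobenius
endomorphism. Only the Künneth formula for the products `X × T_N` is used, where `T_N` is a surface
obtained from the projective plane by `N` successive blow-ups in rational points. The defect of an
eigenvalue is the difference of the dimensions of its generalized eigenspace and of its
eigenspace.

**One surface.** If for some `N` the defect of the eigenvalue `q a` on `H^4(X × T_N)` is at most `N`,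
then the eigenvalue `a` is semisimple on `H^2(X)`.

**All surfaces.** If on the fourfolds `Y` the defect of the eigenvalue `q a` on `H^4(Y)` is
`o(b_4(Y))`, then the eigenvalue `a` is semisimple on `H^2(X)` for all surfaces `X`.
-/

universe u v w

namespace Pool.Agent.Results.MP_1fe969_ag.SublinearDefects

open Pool.Agent.V11106.SH

theorem result {K : Type u} [Field K] (C : CompleteCohomology.{u, v, w} K) (a : K) :
    (∀ X : C.Obj, C.dim X = 2 → ∀ N : ℕ, frobDefect C (C.times X N) (2 + 2) (C.q * a) ≤ N →
      FrobEigenSemisimple C X 2 a) ∧
    (DefectSublinear C (2 + 2) (2 + 2) (C.q * a) →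
      ∀ X : C.Obj, C.dim X = 2 → FrobEigenSemisimple C X 2 a) :=
  ⟨fun X _ N h => surface_one C X 2 a N h, fun h X hX => surface_sublinear C h X hX⟩

end Pool.Agent.Results.MP_1fe969_ag.SublinearDefects
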